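import Pool.Agent.H7.LP.Targets3

/-!
# Board lpq_modules, row ESQ
-/

set_option autoImplicit false

open Set Filter Topology

namespace Pool.Agent.H86.LPQ

open Pool.Agent.H93.CP Pool.Agent.H7.LP Pool.Agent.H7.LQ

/-- The entry of the matrix at a measurable random place is measurable. -/
private theorem esq_me {G : Type} [MeasurableSpace G] {F : St2 → ℕ → ℕ × G}
    (hF : ∀ s, Measurable fun w => F w s) (s i : ℕ) :
    Measurable fun w : St2 => w.2 (F w s).1 i := by
  have h0 : Measurable fun w : St2 => (F w s).1 := (hF s).fst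
  intro U hU
  have h : (fun w : St2 => w.2 (F w s).1 i) ⁻¹' U =
      ⋃ j : ℕ, {w : St2 | (F w s).1 = j} ∩ {w : St2 | w.2 j i ∈ U} := by
    ext w
    simp only [mem_preimage, mem_iUnion, mem_inter_iff, mem_ofPred_eq]
    exact ⟨fun hw => ⟨_, rfl, hw⟩, fun ⟨j, hj, hw⟩ => by rw [hj]; exact hw⟩
  rw [h]
  refine MeasurableSet.iUnion fun j => MeasurableSet.inter ?_ ?_
  · exact h0 (measurableSet_singleton j)
  · have h1 : Measurable fun w : St2 => w.2 j i :=
      (measurable_pi_apply i).comp ((measurable_pi_apply j).comp measurable_snd)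
    exact h1 hU

/-- Row ESQ. -/
theorem pf_ESQ : T_ESQ := by
  classical
  intro G _ _ _ _ _ _ B sel F hs hF
  let p : ℕ → ℕ → St2 → Prop := fun i t w =>
    (w.2 (F w t).1 i).1 = true ∨ ∀ t', ¬ (w.2 (F w t').1 i).1 = true
  have hp : ∀ i w, ∃ t, p i t w := by
    intro i w
    by_cases h : ∃ t, (w.2 (F w t).1 i).1 = true
    · obtain ⟨t, ht⟩ := h
      exact ⟨t, Or.inl ht⟩
    · exact ⟨0, Or.inr (not_exists.1 h)⟩
  let f : ℕ → ℕ → St2 → G := fun i t w => (sel (w.2 (F w t).1 i).2 0)⁻¹ * (F w t).2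
  have hf : ∀ i t, Measurable (f i t) := by
    intro i t
    have h1 : Measurable fun w : St2 => sel (w.2 (F w t).1 i).2 0 :=
      (hs.meas 0).comp (measurable_snd.comp (esq_me hF t i))
    exact h1.inv.mul (hF t).snd
  have hm : ∀ i t, MeasurableSet {w : St2 | (w.2 (F w t).1 i).1 = true} := by
    intro i t
    have h1 : Measurable fun w : St2 => (w.2 (F w t).1 i).1 :=
      measurable_fst.comp (esq_me hF t i)
    exact h1 (measurableSet_singleton true)
  have hpm : ∀ i t, MeasurableSet {w | p i t w} := by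
    intro i t
    have h : {w | p i t w} = {w : St2 | (w.2 (F w t).1 i).1 = true} ∪
        ⋂ t', {w : St2 | (w.2 (F w t').1 i).1 = true}ᶜ := by
      ext w
      simp only [p, mem_ofPred_eq, mem_union, mem_iInter, mem_compl_iff]
    rw [h]
    exact (hm i t).union (MeasurableSet.iInter fun t' => (hm i t').compl)
  refine ⟨fun w i => f i (Nat.find (hp i w)) w, fun i => ?_, fun w i hw => ?_⟩
  · exact Measurable.find (hf i) (hpm i) (hp i)
  · obtain ⟨s, hs'⟩ := hw
    have h := Nat.find_spec (hp i w)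
    rcases h with h | h
    · exact ⟨_, h, rfl⟩
    · exact absurd hs' (h s)

end Pool.Agent.H86.LPQ
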